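import Pool.Agent.Work.MP_54723a_co.KM.Cat
import Pool.Agent.Work.MP_54723a_co.OneColour

/-!
# Reversal of the class (KM)

* `KM.rev` : the class is invariant under reversal.
* `StuckDown_of_StuckUp`, `S08791_of_two_rules` : two rules are enough.
-/

set_option autoImplicit false

namespace FlashRainbow

open Classical

variable {c : ℕ → ℕ → ℕ} {U V T : Finset ℕ} {l R a b k p x N : ℕ}

/-- the reversed set -/
def rvs (V : Finset ℕ) (N : ℕ) : Finset ℕ := V.image fun v => N - v

theorem mem_rvs (hN : ∀ v ∈ V, v ≤ N) {y : ℕ} : y ∈ rvs V N ↔ y ≤ N ∧ N - y ∈ V := by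
  unfold rvs
  rw [Finset.mem_image]
  constructor
  · rintro ⟨v, hv, rfl⟩
    have := hN v hv
    refine ⟨by omega, ?_⟩
    rwa [show N - (N - v) = v by omega]
  · rintro ⟨h1, h2⟩
    exact ⟨N - y, h2, by omega⟩

theorem rvs_le (hN : ∀ v ∈ V, v ≤ N) {y : ℕ} (hy : y ∈ rvs V N) : y ≤ N :=
  ((mem_rvs hN).mp hy).1

theorem rvs_rvs (hN : ∀ v ∈ V, v ≤ N) : rvs (rvs V N) N = V := by
  ext v
  rw [mem_rvs (fun y hy => rvs_le hN hy), mem_rvs hN]
  constructor
  · rintro ⟨h1, _, h3⟩
    rwa [show N - (N - v) = v by omega] at h3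
  · intro hv
    have := hN v hv
    exact ⟨this, by omega, by rwa [show N - (N - v) = v by omega]⟩

theorem card_rvs (hN : ∀ v ∈ V, v ≤ N) : (rvs V N).card = V.card := by
  refine Finset.card_image_of_injOn fun u hu v hv h => ?_
  have h1 := hN u hu
  have h2 := hN v hv
  have h3 : N - u = N - v := h
  omega

theorem revc_revc {u v : ℕ} (hu : u ≤ N) (hv : v ≤ N) : revc (revc c N) N u v = c u v := by
  unfold revc
  rw [show N - (N - u) = u by omega, show N - (N - v) = v by omega]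

theorem revc_eq {u v : ℕ} : revc c N u v = c (N - v) (N - u) := rfl

/-- paths into a vertex become paths out of a vertex -/
theorem RP.toRS_rev (hN : ∀ v ∈ V, v ≤ N) {y : ℕ} {D : Finset ℕ}
    (h : RP (revc c N) (rvs V N) y D) : RS c V (N - y) D := by
  induction h with
  | single hx => exact RS.single ((mem_rvs hN).mp hx).2
  | @step x y D h hy hlt hc ih =>
    have h1 := (mem_rvs hN).mp hy
    have h2 := (mem_rvs hN).mp h.mem
    exact RS.step ih h1.2 (by omega) hc

theorem RS.toRP_rev (hN : ∀ v ∈ V, v ≤ N) {y : ℕ} {D : Finset ℕ}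
    (h : RS (revc c N) (rvs V N) y D) : RP c V (N - y) D := by
  induction h with
  | single hx => exact RP.single ((mem_rvs hN).mp hx).2
  | @step x y D h hx hlt hc ih =>
    have h1 := (mem_rvs hN).mp hx
    have h2 := (mem_rvs hN).mp h.mem
    exact RP.step ih h1.2 (by omega) hc

theorem RQ.rev (hN : ∀ v ∈ V, v ≤ N) {x y : ℕ} {D : Finset ℕ}
    (h : RQ (revc c N) (rvs V N) x y D) : RQ c V (N - y) (N - x) D := by
  induction h with
  | single hx => exact RQ.single ((mem_rvs hN).mp hx).2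
  | @step y z D h hz hlt hc ih =>
    have h1 := (mem_rvs hN).mp hz
    have h2 := (mem_rvs hN).mp h.memR
    exact ih.prepend h1.2 (by omega) rfl hc

theorem InE_rev (hN : ∀ v ∈ V, v ≤ N) {g y : ℕ} (hy : y ≤ N) :
    InE (revc c N) (rvs V N) g y → OutE c V g (N - y) := by
  rintro ⟨u, hu, huy, hc⟩
  have h1 := (mem_rvs hN).mp hu
  exact ⟨N - u, h1.2, by omega, hc⟩

theorem OutE_rev (hN : ∀ v ∈ V, v ≤ N) {g y : ℕ} (hy : y ≤ N) :
    OutE (revc c N) (rvs V N) g y → InE c V g (N - y) := by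
  rintro ⟨u, hu, huy, hc⟩
  have h1 := (mem_rvs hN).mp hu
  exact ⟨N - u, h1.2, by omega, hc⟩

theorem GoodF.rev (hN : ∀ v ∈ V, v ≤ N) {y : ℕ} (hy : y ≤ N) (h : GoodF c V a (N - y)) :
    GoodB (revc c N) (rvs V N) a y := by
  rcases h with h | ⟨μ, h1, h2⟩
  · exact Or.inl fun D hD => h D (hD.toRS_rev hN)
  · exact Or.inr ⟨μ, fun h => h1 (InE_rev hN hy h), fun D hD => h2 D (hD.toRS_rev hN)⟩

theorem GoodB.rev (hN : ∀ v ∈ V, v ≤ N) {y : ℕ} (hy : y ≤ N) (h : GoodB c V a (N - y)) :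
    GoodF (revc c N) (rvs V N) a y := by
  rcases h with h | ⟨μ, h1, h2⟩
  · exact Or.inl fun D hD => h D (hD.toRP_rev hN)
  · exact Or.inr ⟨μ, fun h => h1 (OutE_rev hN hy h), fun D hD => h2 D (hD.toRP_rev hN)⟩

/-- **The class is invariant under reversal.** -/
theorem KM.rev (hN : ∀ v ∈ V, v ≤ N) (h : KM c V p a) :
    KM (revc c N) (rvs V N) (N + 1 - p) a := by
  rw [KM_iff] at h ⊢
  obtain ⟨h1, h2, h3⟩ := h
  refine ⟨fun v hv hvp => ?_, fun w hw hpw => ?_, fun x y D hD hx hy => ?_⟩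
  · have h4 := (mem_rvs hN).mp hv
    exact (h2 _ h4.2 (by omega)).rev hN h4.1
  · have h4 := (mem_rvs hN).mp hw
    exact (h1 _ h4.2 (by omega)).rev hN h4.1
  · have h4 := (mem_rvs hN).mp hD.memL
    have h5 := (mem_rvs hN).mp hD.memR
    exact h3 _ _ D (hD.rev hN) (by omega) (by omega)

theorem noMP_rev {j : ℕ} (hN : ∀ v ∈ V, v ≤ N) (hno : ∀ γ v, ¬ MP c V γ v j) (γ v : ℕ) :
    ¬ MP (revc c N) (rvs V N) γ v j := by
  intro h
  obtain ⟨-, w, hw⟩ := MP.rev hN h
  exact hno γ w hw.toMP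

/-- paths in a set depend on the colours of its arcs only -/
theorem KM.congr {c' : ℕ → ℕ → ℕ} (hc : ∀ u ∈ V, ∀ v ∈ V, c' u v = c u v) (h : KM c V p a) :
    KM c' V p a := by
  have hRS : ∀ {x D}, RS c' V x D → RS c V x D := by
    intro x D h
    induction h with
    | single hx => exact RS.single hx
    | @step x y D h hx hlt hcx ih =>
      rw [hc x hx y h.mem] at hcx ⊢
      exact RS.step ih hx hlt hcx
  have hRP : ∀ {x D}, RP c' V x D → RP c V x D := by
    intro x D h
    induction h with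
    | single hx => exact RP.single hx
    | @step x y D h hy hlt hcx ih =>
      rw [hc x h.mem y hy] at hcx ⊢
      exact RP.step ih hy hlt hcx
  have hRQ : ∀ {x y D}, RQ c' V x y D → RQ c V x y D := by
    intro x y D h
    induction h with
    | single hx => exact RQ.single hx
    | @step y z D h hz hlt hcx ih =>
      rw [hc y h.memR z hz] at hcx ⊢
      exact RQ.step ih hz hlt hcx
  rw [KM_iff] at h ⊢
  obtain ⟨h1, h2, h3⟩ := h
  refine ⟨fun v hv hvp => ?_, fun w hw hpw => ?_, fun x y D hD => h3 x y D (hRQ hD)⟩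
  · rcases h1 v hv hvp with h | ⟨μ, h4, h5⟩
    · exact Or.inl fun D hD => h D (hRP hD)
    · refine Or.inr ⟨μ, ?_, fun D hD => h5 D (hRP hD)⟩
      rintro ⟨u, hu, huv, hcu⟩
      exact h4 ⟨u, hu, huv, by rw [← hc u hu v hv]; exact hcu⟩
  · rcases h2 w hw hpw with h | ⟨μ, h4, h5⟩
    · exact Or.inl fun D hD => h D (hRS hD)
    · refine Or.inr ⟨μ, ?_, fun D hD => h5 D (hRS hD)⟩
      rintro ⟨u, hu, huv, hcu⟩
      exact h4 ⟨u, hu, huv, by rw [← hc w hw u hu]; exact hcu⟩

theorem KMs_of_rev (hN : ∀ v ∈ V, v ≤ N) (h : KMs (revc c N) (rvs V N) a) : KMs c V a := by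
  obtain ⟨p, hp⟩ := h
  have h1 := hp.rev (N := N) fun y hy => rvs_le hN hy
  rw [rvs_rvs hN] at h1
  exact ⟨_, h1.congr fun u hu v hv => (revc_revc (hN u hu) (hN v hv)).symm⟩

theorem Three_of_rev (hN : ∀ v ∈ V, v ≤ N) (h : Three (revc c N) (rvs V N) a) :
    Three c V a := by
  obtain ⟨f, hf, hcl⟩ := h
  refine ⟨fun v => f (N - v), fun v hv => hf _ ((mem_rvs hN).mpr ?_), fun i hi => ?_⟩
  · have := hN v hv
    exact ⟨by omega, by rwa [show N - (N - v) = v by omega]⟩
  · have hN' : ∀ v ∈ V.filter (fun v => f (N - v) = i), v ≤ N := fun v hv =>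
      hN v (Finset.mem_filter.mp hv).1
    refine KMs_of_rev hN' ?_
    have h1 : rvs (V.filter fun v => f (N - v) = i) N = (rvs V N).filter fun v => f v = i := by
      ext y
      rw [mem_rvs hN', Finset.mem_filter, Finset.mem_filter, mem_rvs hN]
      constructor
      · rintro ⟨h1, h2, h3⟩
        rw [show N - (N - y) = y by omega] at h3
        exact ⟨⟨h1, h2⟩, h3⟩
      · rintro ⟨⟨h1, h2⟩, h3⟩
        exact ⟨h1, h2, by rw [show N - (N - y) = y by omega]; exact h3⟩
    rw [h1]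
    exact hcl i hi

theorem StuckDown_of_StuckUp (h : StuckUp R) : StuckDown R := by
  intro c V p b hno hKM hgood hb hbp hmax hlong
  obtain ⟨N, hN⟩ : ∃ N, ∀ v ∈ V, v ≤ N := ⟨V.sup id, fun v hv => Finset.le_sup (f := id) hv⟩
  have hbN := hN b hb
  obtain ⟨D, hD, hDc⟩ := hlong
  have hN' : ∀ y ∈ rvs V N, y ≤ N := fun y hy => rvs_le hN hy
  have hb' : N - b ∈ rvs V N :=
    (mem_rvs hN).mpr ⟨by omega, by rwa [show N - (N - b) = b by omega]⟩
  have hD' : RS (revc c N) (rvs V N) (N - b) D := by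
    have h1 : ∀ {y E}, RP c V y E → RS (revc c N) (rvs V N) (N - y) E := by
      intro y E hE
      induction hE with
      | @single x hx =>
        have := hN x hx
        exact RS.single ((mem_rvs hN).mpr
          ⟨by omega, by rwa [show N - (N - x) = x by omega]⟩)
      | @step x y E hE hy hlt hc ih =>
        have h2 := hN y hy
        have h3 := hN x hE.mem
        have h4 : revc c N (N - y) (N - x) = c x y := by
          unfold revc
          rw [show N - (N - x) = x by omega, show N - (N - y) = y by omega]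
        rw [← h4] at hc ⊢
        exact RS.step ih ((mem_rvs hN).mpr
          ⟨by omega, by rwa [show N - (N - y) = y by omega]⟩) (by omega) hc
    exact h1 hD
  have h1 := h (revc c N) (rvs V N) (N + 1 - p) (N - b) (noMP_rev hN hno) (hKM.rev hN)
    (fun v hv hvp => by
      have h4 := (mem_rvs hN).mp hv
      exact (hgood _ h4.2 (by omega)).rev hN h4.1) hb' (by omega)
    (fun v hv hpv => by
      have h4 := (mem_rvs hN).mp hv
      have h5 := hmax _ h4.2 (by omega)
      omega) ⟨D, hD', hDc⟩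
  rcases h1 with h1 | h1
  · exact Or.inl (by rwa [card_rvs hN] at h1)
  · exact Or.inr (Three_of_rev hN h1)

/-- the frozen statement S08791 from the rules for category 2 and for stuck cuts -/
theorem S08791_of_two_rules (h2 : ∀ R, Cat2Rule R) (hu : ∀ R, StuckUp R) :
    ∀ k : ℕ, 1 ≤ k →
      (∃ c : Fin (3 ^ (k - 1)) → Fin (3 ^ (k - 1)) → ℕ,
          (¬ ∃ x : Fin (3 + 1) → Fin (3 ^ (k - 1)), StrictMono x ∧
              ∃ col : ℕ, ∀ i : Fin 3, c (x i.castSucc) (x i.succ) = col) ∧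
          (¬ ∃ y : Fin (k + 1) → Fin (3 ^ (k - 1)), StrictMono y ∧
              Function.Injective (fun i : Fin k => c (y i.castSucc) (y i.succ)))) ∧
      (∀ c : Fin (3 ^ (k - 1) + 1) → Fin (3 ^ (k - 1) + 1) → ℕ,
          (∃ x : Fin (3 + 1) → Fin (3 ^ (k - 1) + 1), StrictMono x ∧
              ∃ col : ℕ, ∀ i : Fin 3, c (x i.castSucc) (x i.succ) = col) ∨
          (∃ y : Fin (k + 1) → Fin (3 ^ (k - 1) + 1), StrictMono y ∧
              Function.Injective (fun i : Fin k => c (y i.castSucc) (y i.succ)))) :=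
  S08791_of_rules h2 hu fun R => StuckDown_of_StuckUp (hu R)

end FlashRainbow
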