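import Pool.Agent.Work.MP_54723a_co.KM.Frame

/-!
# The categories of a (KM) cut (note 8433)

For a cut `p` of a set in `KM (R + 1)` let `D''` be the vertices below the cut which are not good
backwards for `R` and `U''` the vertices above the cut which are not good for `R`.

* `GoodB_lo`, `GoodF_hi` : being good does not depend on the cut.
* `KM.shiftUp`, `KM.shiftDown` : the cut may be moved past a vertex with short paths.
* `card_split` : if `D''` and `U''` are empty for the two sides of one vertex `x`, then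
  `|V| ≤ 2 N + 1`, where `N` bounds the sets of `KM R`.
* `card_le_of_noCat2` : a set of rank at most `R + 1` without a cut with non-empty `D''` and `U''`
  has at most `2 N + 1` vertices.
* `Cat2Rule`, `StuckUp`, `StuckDown` : the rules that are left; `card_le_of_rules` : together they
  give `|V| ≤ 3 ^ R` for the class, `S08791_of_rules` : the frozen statement.
-/

set_option autoImplicit false

namespace FlashRainbow

open Classical

variable {c : ℕ → ℕ → ℕ} {U V T : Finset ℕ} {l R a b k p x N : ℕ}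

/-! ## Good vertices do not depend on the cut -/

theorem RP.le_lo {y : ℕ} {D : Finset ℕ} (h : RP c V y D) (hy : y < p) : RP c (lo V p) y D := by
  induction h with
  | single hx => exact RP.single (mem_lo.mpr ⟨hx, hy⟩)
  | step _ hz hlt hc ih => exact RP.step (ih (hlt.trans hy)) (mem_lo.mpr ⟨hz, hy⟩) hlt hc

theorem RS.ge_hi {y : ℕ} {D : Finset ℕ} (h : RS c V y D) (hy : p ≤ y) : RS c (hi V p) y D := by
  induction h with
  | single hx => exact RS.single (mem_hi.mpr ⟨hx, hy⟩)
  | step _ hx hlt hc ih => exact RS.step (ih (hy.trans hlt.le)) (mem_hi.mpr ⟨hx, hy⟩) hlt hc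

theorem InE_lo {g v : ℕ} (hv : v < p) : InE c (lo V p) g v ↔ InE c V g v := by
  constructor
  · exact fun h => h.mono lo_sub
  · rintro ⟨u, hu, huv, hc⟩
    exact ⟨u, mem_lo.mpr ⟨hu, huv.trans hv⟩, huv, hc⟩

theorem OutE_hi {g v : ℕ} (hv : p ≤ v) : OutE c (hi V p) g v ↔ OutE c V g v := by
  constructor
  · exact fun h => h.mono hi_sub
  · rintro ⟨u, hu, huv, hc⟩
    exact ⟨u, mem_hi.mpr ⟨hu, hv.trans huv.le⟩, huv, hc⟩

theorem GoodB_lo {v : ℕ} (hv : v < p) : GoodB c (lo V p) a v ↔ GoodB c V a v := by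
  constructor
  · rintro (h | ⟨μ, h1, h2⟩)
    · exact Or.inl fun D hD => h D (hD.le_lo hv)
    · exact Or.inr ⟨μ, fun h => h1 ((InE_lo hv).mpr h), fun D hD => h2 D (hD.le_lo hv)⟩
  · exact fun h => h.mono lo_sub

theorem GoodF_hi {v : ℕ} (hv : p ≤ v) : GoodF c (hi V p) a v ↔ GoodF c V a v := by
  constructor
  · rintro (h | ⟨μ, h1, h2⟩)
    · exact Or.inl fun D hD => h D (hD.ge_hi hv)
    · exact Or.inr ⟨μ, fun h => h1 ((OutE_hi hv).mpr h), fun D hD => h2 D (hD.ge_hi hv)⟩
  · exact fun h => h.mono hi_sub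

/-- the class with goodness in the whole set -/
theorem KM_iff : KM c V p a ↔ (∀ v ∈ V, v < p → GoodB c V a v) ∧
    (∀ w ∈ V, p ≤ w → GoodF c V a w) ∧ ∀ x y D, RQ c V x y D → x < p → p ≤ y → D.card ≤ a := by
  unfold KM
  constructor
  · rintro ⟨h1, h2, h3⟩
    exact ⟨fun v hv hvp => (GoodB_lo hvp).mp (h1 v (mem_lo.mpr ⟨hv, hvp⟩)),
      fun w hw hpw => (GoodF_hi hpw).mp (h2 w (mem_hi.mpr ⟨hw, hpw⟩)), h3⟩
  · rintro ⟨h1, h2, h3⟩
    exact ⟨fun v hv => (GoodB_lo (mem_lo.mp hv).2).mpr (h1 v (mem_lo.mp hv).1 (mem_lo.mp hv).2),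
      fun w hw => (GoodF_hi (mem_hi.mp hw).2).mpr (h2 w (mem_hi.mp hw).1 (mem_hi.mp hw).2), h3⟩

/-! ## One-sided sets -/

/-- all vertices good: the class with the cut at the bottom -/
theorem KMs_of_GoodF (h : ∀ w ∈ V, GoodF c V a w) : KMs c V a :=
  ⟨0, KM_iff.mpr ⟨fun v _ hv => absurd hv (Nat.not_lt_zero v), fun w hw _ => h w hw,
    fun x _ _ _ hx => absurd hx (Nat.not_lt_zero x)⟩⟩

/-- all vertices good backwards: the class with the cut at the top -/
theorem KMs_of_GoodB (h : ∀ w ∈ V, GoodB c V a w) : KMs c V a := by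
  refine ⟨V.sup id + 1, KM_iff.mpr ⟨fun v hv _ => h v hv, fun w hw hpw => ?_,
    fun x y D hD _ hy => ?_⟩⟩
  · have h1 : w ≤ V.sup id := Finset.le_sup (f := id) hw
    omega
  · have h1 : y ≤ V.sup id := Finset.le_sup (f := id) hD.memR
    omega

/-! ## Shifts of the cut -/

/-- The cut may be moved up past its first vertex `b` if the paths of the upper part from `b` are
short. -/
theorem KM.shiftUp (h : KM c V p a) (hb : p ≤ b) (hmin : ∀ v ∈ V, p ≤ v → b ≤ v)
    (hshort : ∀ D, RS c V b D → D.card ≤ a) : KM c V (b + 1) a := by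
  rw [KM_iff] at h ⊢
  obtain ⟨h1, h2, h3⟩ := h
  refine ⟨fun v hv hvb => ?_, fun w hw hbw => h2 w hw (by omega), fun x y D hD hx hy => ?_⟩
  · rcases lt_or_ge v p with hvp | hvp
    · exact h1 v hv hvp
    · have hvb' : v = b := le_antisymm (Nat.lt_succ_iff.mp hvb) (hmin v hv hvp)
      subst hvb'
      refine Or.inl fun D hD => ?_
      obtain ⟨u, hu⟩ := hD.exists_RQ
      rcases lt_or_ge u p with hup | hup
      · exact h3 u v D hu hup hvp
      · have huv := hu.le
        have huv' : u = v := le_antisymm huv (hmin u hu.memL hup)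
        subst huv'
        have h5 : ∀ {y E}, RQ c V u y E → y = u → E = ∅ := by
          intro y E hE hy
          cases hE with
          | single _ => rfl
          | step h6 _ hlt _ =>
            have := h6.le
            omega
        rw [h5 hu rfl, Finset.card_empty]
        exact Nat.zero_le a
  · rcases lt_or_ge x p with hxp | hxp
    · exact h3 x y D hD hxp (by omega)
    · have hxb : x = b := le_antisymm (Nat.lt_succ_iff.mp hx) (hmin x hD.memL hxp)
      subst hxb
      exact hshort D hD.toRS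

/-- The cut may be moved down past the last vertex `b` below it if the paths of the lower part into
`b` are short. -/
theorem KM.shiftDown (h : KM c V p a) (hb : b < p) (hmax : ∀ v ∈ V, v < p → v ≤ b)
    (hshort : ∀ D, RP c V b D → D.card ≤ a) : KM c V b a := by
  rw [KM_iff] at h ⊢
  obtain ⟨h1, h2, h3⟩ := h
  refine ⟨fun v hv hvb => h1 v hv (hvb.trans hb), fun w hw hbw => ?_, fun x y D hD hx hy => ?_⟩
  · rcases lt_or_ge w p with hwp | hwp
    · have hwb : w = b := le_antisymm (hmax w hw hwp) hbw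
      subst hwb
      refine Or.inl fun D hD => ?_
      have key : ∀ {x D}, RS c V x D → ∃ y, RQ c V x y D := by
        intro x D hD
        induction hD with
        | @single x hx => exact ⟨x, RQ.single hx⟩
        | @step x y D _ hx hlt hc ih =>
          obtain ⟨z, hz⟩ := ih
          exact ⟨z, hz.prepend hx hlt rfl hc⟩
      obtain ⟨u, hu⟩ := key hD
      rcases lt_or_ge u p with hup | hup
      · have huw := hu.le
        have huw' : u = w := le_antisymm (hmax u hu.memR hup) huw
        subst huw'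
        have h5 : ∀ {y E}, RQ c V u y E → y = u → E = ∅ := by
          intro y E hE hy
          cases hE with
          | single _ => rfl
          | step h6 _ hlt _ =>
            have := h6.le
            omega
        rw [h5 hu rfl, Finset.card_empty]
        exact Nat.zero_le a
      · exact h3 w u D hu hwp hup
    · exact h2 w hw hwp
  · rcases lt_or_ge y p with hyp | hyp
    · have hyb : y = b := le_antisymm (hmax y hD.memR hyp) hy
      subst hyb
      exact hshort D hD.toRP
    · exact h3 x y D hD (hx.trans hb) hyp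

/-! ## The categories -/

/-- `N` bounds the sets without 3-flash of the class for `R` -/
def KMBnd (R N : ℕ) : Prop :=
  ∀ (c : ℕ → ℕ → ℕ) (V : Finset ℕ), (∀ γ v, ¬ MP c V γ v 3) → KMs c V R → V.card ≤ N

/-- both sides of one vertex are good for `R` -/
theorem card_split (hN : KMBnd R N) (hno : ∀ γ v, ¬ MP c V γ v 3)
    (hlo : ∀ v ∈ V, v < x → GoodB c V R v) (hhi : ∀ w ∈ V, x < w → GoodF c V R w) :
    V.card ≤ 2 * N + 1 := by
  have h1 : (lo V x).card ≤ N := hN c _ (fun γ v hm => hno γ v (hm.mono lo_sub))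
    (KMs_of_GoodB fun v hv => (hlo v (mem_lo.mp hv).1 (mem_lo.mp hv).2).mono lo_sub)
  have h2 : (hi V (x + 1)).card ≤ N := hN c _ (fun γ v hm => hno γ v (hm.mono hi_sub))
    (KMs_of_GoodF fun v hv => (hhi v (mem_hi.mp hv).1 (mem_hi.mp hv).2).mono hi_sub)
  have h3 : V ⊆ insert x (lo V x ∪ hi V (x + 1)) := by
    intro v hv
    rw [Finset.mem_insert, Finset.mem_union, mem_lo, mem_hi]
    rcases lt_trichotomy v x with h | h | h
    · exact Or.inr (Or.inl ⟨hv, h⟩)
    · exact Or.inl h
    · exact Or.inr (Or.inr ⟨hv, h⟩)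
  have h4 := Finset.card_le_card h3
  have h5 := Finset.card_insert_le x (lo V x ∪ hi V (x + 1))
  have h6 := Finset.card_union_le (lo V x) (hi V (x + 1))
  omega

/-- both sides of a cut are good for `R` -/
theorem card_cat0 (hN : KMBnd R N) (hno : ∀ γ v, ¬ MP c V γ v 3)
    (hlo : ∀ v ∈ V, v < p → GoodB c V R v) (hhi : ∀ w ∈ V, p ≤ w → GoodF c V R w) :
    V.card ≤ 2 * N := by
  have h1 : (lo V p).card ≤ N := hN c _ (fun γ v hm => hno γ v (hm.mono lo_sub))
    (KMs_of_GoodB fun v hv => (hlo v (mem_lo.mp hv).1 (mem_lo.mp hv).2).mono lo_sub)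
  have h2 : (hi V p).card ≤ N := hN c _ (fun γ v hm => hno γ v (hm.mono hi_sub))
    (KMs_of_GoodF fun v hv => (hhi v (mem_hi.mp hv).1 (mem_hi.mp hv).2).mono hi_sub)
  have h3 : V ⊆ lo V p ∪ hi V p := by
    intro v hv
    rw [Finset.mem_union, mem_lo, mem_hi]
    rcases lt_or_ge v p with h | h
    · exact Or.inl ⟨hv, h⟩
    · exact Or.inr ⟨hv, h⟩
  have h4 := Finset.card_le_card h3
  have h6 := Finset.card_union_le (lo V p) (hi V p)
  omega

/-- the cut has vertices that are not good for `R` on both sides -/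
def Cat2 (c : ℕ → ℕ → ℕ) (V : Finset ℕ) (p R : ℕ) : Prop :=
  (∃ v ∈ V, v < p ∧ ¬ GoodB c V R v) ∧ ∃ w ∈ V, p ≤ w ∧ ¬ GoodF c V R w

/-- a set without a cut of category 2 -/
theorem card_le_of_noCat2 (hN : KMBnd R N) (hno : ∀ γ v, ¬ MP c V γ v 3)
    (h : ∀ p, ¬ Cat2 c V p R) : V.card ≤ 2 * N + 1 := by
  by_cases hb : ∃ v ∈ V, ¬ GoodB c V R v
  · set x := Nat.find hb with hx
    obtain ⟨hxV, hxb⟩ := Nat.find_spec hb
    refine card_split (x := x) hN hno (fun v hv hvx => ?_) fun w hw hxw => ?_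
    · by_contra hcon
      exact Nat.find_min hb hvx ⟨hv, hcon⟩
    · by_contra hcon
      exact h (x + 1) ⟨⟨x, hxV, Nat.lt_succ_self x, hxb⟩, w, hw, hxw, hcon⟩
  · push Not at hb
    have h1 := hN c V hno (KMs_of_GoodB hb)
    omega

/-- a set is a union of three sets of the class for `R` -/
def Three (c : ℕ → ℕ → ℕ) (V : Finset ℕ) (R : ℕ) : Prop :=
  ∃ f : ℕ → ℕ, (∀ v ∈ V, f v < 3) ∧ ∀ i < 3, KMs c (V.filter fun v => f v = i) R

theorem Three.card_le (hN : KMBnd R N) (hno : ∀ γ v, ¬ MP c V γ v 3) (h : Three c V R) :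
    V.card ≤ 3 * N := by
  obtain ⟨f, hf, hcl⟩ := h
  have h1 : V.card = ∑ i ∈ Finset.range 3, (V.filter fun v => f v = i).card :=
    Finset.card_eq_sum_card_fiberwise fun v hv => Finset.mem_coe.mpr
      (Finset.mem_range.mpr (hf v hv))
  rw [h1]
  refine (Finset.sum_le_card_nsmul _ _ N fun i hi => ?_).trans ?_
  · exact hN c _ (fun γ v hm => hno γ v (hm.mono (Finset.filter_subset _ _)))
      (hcl i (Finset.mem_range.mp hi))
  · rw [Finset.card_range, smul_eq_mul]

/-- the rule for the cuts of category 2 -/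
def Cat2Rule (R : ℕ) : Prop :=
  ∀ (c : ℕ → ℕ → ℕ) (V : Finset ℕ) (p : ℕ), (∀ γ v, ¬ MP c V γ v 3) → KM c V p (R + 1) →
    Cat2 c V p R → V.card ≤ 3 ^ (R + 1) ∨ Three c V R

/-- the rule for the cuts of category 2 in sets of rank at most `R + 1` -/
def Cat2Global (R : ℕ) : Prop :=
  ∀ (c : ℕ → ℕ → ℕ) (V : Finset ℕ) (p : ℕ), (∀ γ v, ¬ MP c V γ v 3) → Rk c V (R + 1) →
    Cat2 c V p R → V.card ≤ 3 ^ (R + 1) ∨ Three c V R

/-- the rule for a cut whose lower part is good for `R` and whose first upper vertex has a long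
path -/
def StuckUp (R : ℕ) : Prop :=
  ∀ (c : ℕ → ℕ → ℕ) (V : Finset ℕ) (p b : ℕ), (∀ γ v, ¬ MP c V γ v 3) → KM c V p (R + 1) →
    (∀ v ∈ V, v < p → GoodB c V R v) → b ∈ V → p ≤ b → (∀ v ∈ V, p ≤ v → b ≤ v) →
    (∃ D, RS c V b D ∧ R + 2 ≤ D.card) → V.card ≤ 3 ^ (R + 1) ∨ Three c V R

/-- the mirror image -/
def StuckDown (R : ℕ) : Prop :=
  ∀ (c : ℕ → ℕ → ℕ) (V : Finset ℕ) (p b : ℕ), (∀ γ v, ¬ MP c V γ v 3) → KM c V p (R + 1) →
    (∀ w ∈ V, p ≤ w → GoodF c V R w) → b ∈ V → b < p → (∀ v ∈ V, v < p → v ≤ b) →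
    (∃ D, RP c V b D ∧ R + 2 ≤ D.card) → V.card ≤ 3 ^ (R + 1) ∨ Three c V R

theorem two_mul_add_one_le (R : ℕ) : 2 * 3 ^ R + 1 ≤ 3 ^ (R + 1) := by
  have h : 1 ≤ 3 ^ R := Nat.one_le_pow _ _ (by norm_num)
  rw [pow_succ]
  omega

theorem card_le_of_or (hN : KMBnd R (3 ^ R)) (hno : ∀ γ v, ¬ MP c V γ v 3)
    (h : V.card ≤ 3 ^ (R + 1) ∨ Three c V R) : V.card ≤ 3 ^ (R + 1) := by
  rcases h with h | h
  · exact h
  · refine (h.card_le hN hno).trans (le_of_eq ?_)
    rw [pow_succ, mul_comm]

/-- the lower part of the cut is good for `R` -/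
theorem card_le_up (hN : KMBnd R (3 ^ R)) (h2 : Cat2Rule R) (hs : StuckUp R)
    (hno : ∀ γ v, ¬ MP c V γ v 3) : ∀ (n p : ℕ), (hi V p).card ≤ n → KM c V p (R + 1) →
    (∀ v ∈ V, v < p → GoodB c V R v) → V.card ≤ 3 ^ (R + 1) := by
  intro n
  have hpow := two_mul_add_one_le R
  induction n with
  | zero =>
    intro p hn _ hlo
    have h3 := card_cat0 (p := p) hN hno hlo fun w hw hpw => by
      have h4 : w ∈ hi V p := mem_hi.mpr ⟨hw, hpw⟩
      rw [Finset.card_eq_zero.mp (Nat.le_zero.mp hn)] at h4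
      exact absurd h4 (Finset.notMem_empty w)
    omega
  | succ n ih =>
    intro p hn hKM hlo
    by_cases hne : ∃ b, b ∈ V ∧ p ≤ b
    · set b := Nat.find hne with hb
      obtain ⟨hbV, hpb⟩ := Nat.find_spec hne
      have hmin : ∀ v ∈ V, p ≤ v → b ≤ v := fun v hv hpv => Nat.find_min' hne ⟨hv, hpv⟩
      by_cases hshort : ∀ D, RS c V b D → D.card ≤ R + 1
      · have hKM' := hKM.shiftUp hpb hmin hshort
        by_cases hgb : GoodB c V R b
        · refine ih (b + 1) ?_ hKM' fun v hv hvb => ?_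
          · have h5 : hi V (b + 1) ⊆ (hi V p).erase b := by
              intro v hv
              rw [mem_hi] at hv
              rw [Finset.mem_erase, mem_hi]
              exact ⟨by omega, hv.1, by omega⟩
            have h6 := Finset.card_le_card h5
            rw [Finset.card_erase_of_mem (mem_hi.mpr ⟨hbV, hpb⟩)] at h6
            omega
          · rcases lt_or_ge v p with hvp | hvp
            · exact hlo v hv hvp
            · have h7 : v = b := le_antisymm (Nat.lt_succ_iff.mp hvb) (hmin v hv hvp)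
              rw [h7]
              exact hgb
        · by_cases hU : ∃ w ∈ V, b + 1 ≤ w ∧ ¬ GoodF c V R w
          · exact card_le_of_or hN hno
              (h2 c V (b + 1) hno hKM' ⟨⟨b, hbV, Nat.lt_succ_self b, hgb⟩, hU⟩)
          · push Not at hU
            have h8 := card_split (x := b) hN hno (fun v hv hvb => by
              rcases lt_or_ge v p with hvp | hvp
              · exact hlo v hv hvp
              · have := hmin v hv hvp
                omega) fun w hw hbw => hU w hw hbw
            omega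
      · push Not at hshort
        obtain ⟨D, hD, hDc⟩ := hshort
        exact card_le_of_or hN hno (hs c V p b hno hKM hlo hbV hpb hmin ⟨D, hD, hDc⟩)
    · push Not at hne
      have h3 := card_cat0 (p := p) hN hno hlo fun w hw hpw => absurd (hne w hw) (not_lt.mpr hpw)
      omega

/-- the upper part of the cut is good for `R` -/
theorem card_le_down (hN : KMBnd R (3 ^ R)) (h2 : Cat2Rule R) (hs : StuckDown R)
    (hno : ∀ γ v, ¬ MP c V γ v 3) : ∀ (n p : ℕ), (lo V p).card ≤ n → KM c V p (R + 1) →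
    (∀ w ∈ V, p ≤ w → GoodF c V R w) → V.card ≤ 3 ^ (R + 1) := by
  intro n
  have hpow := two_mul_add_one_le R
  induction n with
  | zero =>
    intro p hn _ hhi
    have h3 := card_cat0 (p := p) hN hno (fun v hv hvp => by
      have h4 : v ∈ lo V p := mem_lo.mpr ⟨hv, hvp⟩
      rw [Finset.card_eq_zero.mp (Nat.le_zero.mp hn)] at h4
      exact absurd h4 (Finset.notMem_empty v)) hhi
    omega
  | succ n ih =>
    intro p hn hKM hhi
    rcases (lo V p).eq_empty_or_nonempty with hemp | hne
    · have h3 := card_cat0 (p := p) hN hno (fun v hv hvp => by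
        have h4 : v ∈ lo V p := mem_lo.mpr ⟨hv, hvp⟩
        rw [hemp] at h4
        exact absurd h4 (Finset.notMem_empty v)) hhi
      omega
    · set b := (lo V p).max' hne with hb
      obtain ⟨hbV, hbp⟩ := mem_lo.mp ((lo V p).max'_mem hne)
      rw [← hb] at hbV hbp
      have hmax : ∀ v ∈ V, v < p → v ≤ b := fun v hv hvp =>
        (lo V p).le_max' v (mem_lo.mpr ⟨hv, hvp⟩)
      by_cases hshort : ∀ D, RP c V b D → D.card ≤ R + 1
      · have hKM' := hKM.shiftDown hbp hmax hshort
        by_cases hgb : GoodF c V R b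
        · refine ih b ?_ hKM' fun w hw hbw => ?_
          · have h5 : lo V b ⊆ (lo V p).erase b := by
              intro v hv
              rw [mem_lo] at hv
              rw [Finset.mem_erase, mem_lo]
              exact ⟨by omega, hv.1, by omega⟩
            have h6 := Finset.card_le_card h5
            rw [Finset.card_erase_of_mem (mem_lo.mpr ⟨hbV, hbp⟩)] at h6
            omega
          · rcases lt_or_ge w p with hwp | hwp
            · have h7 : w = b := le_antisymm (hmax w hw hwp) hbw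
              rw [h7]
              exact hgb
            · exact hhi w hw hwp
        · by_cases hD : ∃ v ∈ V, v < b ∧ ¬ GoodB c V R v
          · exact card_le_of_or hN hno
              (h2 c V b hno hKM' ⟨hD, b, hbV, le_rfl, hgb⟩)
          · push Not at hD
            have h8 := card_split (x := b) hN hno (fun v hv hvb => hD v hv hvb)
              fun w hw hbw => by
                rcases lt_or_ge w p with hwp | hwp
                · have := hmax w hw hwp
                  omega
                · exact hhi w hw hwp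
            omega
      · push Not at hshort
        obtain ⟨D, hD, hDc⟩ := hshort
        exact card_le_of_or hN hno (hs c V p b hno hKM hhi hbV hbp hmax ⟨D, hD, hDc⟩)

/-- the bound for the class from the three rules -/
theorem KMBnd_succ (hN : KMBnd R (3 ^ R)) (h2 : Cat2Rule R) (hu : StuckUp R) (hd : StuckDown R) :
    KMBnd (R + 1) (3 ^ (R + 1)) := by
  intro c V hno hV
  obtain ⟨p, hp⟩ := hV
  by_cases hD : ∃ v ∈ V, v < p ∧ ¬ GoodB c V R v
  · by_cases hU : ∃ w ∈ V, p ≤ w ∧ ¬ GoodF c V R w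
    · exact card_le_of_or hN hno (h2 c V p hno hp ⟨hD, hU⟩)
    · push Not at hU
      exact card_le_down hN h2 hd hno _ p le_rfl hp hU
  · push Not at hD
    exact card_le_up hN h2 hu hno _ p le_rfl hp hD

theorem KMBnd_zero : KMBnd 0 (3 ^ 0) := by
  intro c V _ hV
  obtain ⟨p, hp⟩ := hV
  simpa using hp.card_le_one

theorem KMBnd_of_rules (h2 : ∀ R, Cat2Rule R) (hu : ∀ R, StuckUp R) (hd : ∀ R, StuckDown R) :
    ∀ R, KMBnd R (3 ^ R) := by
  intro R
  induction R with
  | zero => exact KMBnd_zero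
  | succ R ih => exact KMBnd_succ ih (h2 R) (hu R) (hd R)

theorem BndAt_of_KMBnd (h : KMBnd R (3 ^ R)) : BndAt 3 R := fun c V _ hL hR =>
  h c V hL.noMP ⟨0, KM_of_Rk hR 0⟩

/-- the theorem for `R + 1` from the class for `R` and the rule of category 2 for sets of rank at
most `R + 1` -/
theorem BndAt_succ_of_Cat2Global (hN : KMBnd R (3 ^ R)) (h : Cat2Global R) : BndAt 3 (R + 1) := by
  intro c V lev hL hR
  have hno := hL.noMP
  have hpow := two_mul_add_one_le R
  by_cases h2 : ∃ p, Cat2 c V p R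
  · obtain ⟨p, hp⟩ := h2
    exact card_le_of_or hN hno (h c V p hno hR hp)
  · push Not at h2
    have := card_le_of_noCat2 hN hno h2
    omega

/-- the frozen statement S08791 from the three rules -/
theorem S08791_of_rules (h2 : ∀ R, Cat2Rule R) (hu : ∀ R, StuckUp R) (hd : ∀ R, StuckDown R) :
    ∀ k : ℕ, 1 ≤ k →
      (∃ c : Fin (3 ^ (k - 1)) → Fin (3 ^ (k - 1)) → ℕ,
          (¬ ∃ x : Fin (3 + 1) → Fin (3 ^ (k - 1)), StrictMono x ∧
              ∃ col : ℕ, ∀ i : Fin 3, c (x i.castSucc) (x i.succ) = col) ∧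
          (¬ ∃ y : Fin (k + 1) → Fin (3 ^ (k - 1)), StrictMono y ∧
              Function.Injective (fun i : Fin k => c (y i.castSucc) (y i.succ)))) ∧
      (∀ c : Fin (3 ^ (k - 1) + 1) → Fin (3 ^ (k - 1) + 1) → ℕ,
          (∃ x : Fin (3 + 1) → Fin (3 ^ (k - 1) + 1), StrictMono x ∧
              ∃ col : ℕ, ∀ i : Fin 3, c (x i.castSucc) (x i.succ) = col) ∨
          (∃ y : Fin (k + 1) → Fin (3 ^ (k - 1) + 1), StrictMono y ∧
              Function.Injective (fun i : Fin k => c (y i.castSucc) (y i.succ)))) :=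
  S08791_of_Bnd fun R => BndAt_of_KMBnd (KMBnd_of_rules h2 hu hd R)

end FlashRainbow
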