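import Pool.Agent.Work.MP_54723a_co.TOUCH.Touch

/-!
# The class (KM) with a cut (notes 8389, 8348) and the bound `|V| ≤ l ^ R`

* `GoodF c U a w` : all rainbow paths of `U` from `w` have at most `a` edges, or some colour `μ`
  does not leave `w` in `U` and all rainbow paths of `U` from `w` without `μ` have less than `a`
  edges. `GoodB` is the mirror image.
* `KM c V p a` : for the cut at `p` (`lo V p` = the part below `p`, `hi V p` = the rest) the
  vertices below are good backwards inside the lower part, the vertices above are good inside the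
  upper part, and the rainbow paths across the cut have at most `a` edges. `KMs` : some cut.
* `KMRec l` : the recursion `KMs (R + 1)` to `l` classes in `KMs R`.
* `card_le_of_KMRec`, `Bnd_of_KMRec`, `S08791_of_KMRec`, `main_of_KMRec`.
* `KM_levels` : for `l = 3`, a cut `p` and any colour `k`, the three natural classes of `k` are in
  `KM R` if the vertices without incoming arc of colour `k` below the cut and the vertices without
  outgoing arc of colour `k` above the cut are good for `R` inside their sets.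
* `S08791_of_rule` : the frozen statement from the existence of such a colour.
-/

set_option autoImplicit false

namespace FlashRainbow

open Classical

variable {c : ℕ → ℕ → ℕ} {U V T : Finset ℕ} {l R a b k p : ℕ}

/-! ## Good vertices -/

/-- good in forward direction -/
def GoodF (c : ℕ → ℕ → ℕ) (U : Finset ℕ) (a w : ℕ) : Prop :=
  (∀ D, RS c U w D → D.card ≤ a) ∨
    ∃ μ, ¬ OutE c U μ w ∧ ∀ D, RS c U w D → μ ∉ D → D.card + 1 ≤ a

/-- good in backward direction -/
def GoodB (c : ℕ → ℕ → ℕ) (U : Finset ℕ) (a w : ℕ) : Prop :=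
  (∀ D, RP c U w D → D.card ≤ a) ∨
    ∃ μ, ¬ InE c U μ w ∧ ∀ D, RP c U w D → μ ∉ D → D.card + 1 ≤ a

theorem GoodF.mono {w : ℕ} (h : GoodF c V a w) (hTV : T ⊆ V) : GoodF c T a w := by
  rcases h with h | ⟨μ, h1, h2⟩
  · exact Or.inl fun D hD => h D (hD.mono hTV)
  · exact Or.inr ⟨μ, fun h => h1 (h.mono hTV), fun D hD => h2 D (hD.mono hTV)⟩

theorem GoodB.mono {w : ℕ} (h : GoodB c V a w) (hTV : T ⊆ V) : GoodB c T a w := by
  rcases h with h | ⟨μ, h1, h2⟩
  · exact Or.inl fun D hD => h D (hD.mono hTV)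
  · exact Or.inr ⟨μ, fun h => h1 (h.mono hTV), fun D hD => h2 D (hD.mono hTV)⟩

theorem GoodF.le {w : ℕ} (h : GoodF c V a w) (hab : a ≤ b) : GoodF c V b w := by
  rcases h with h | ⟨μ, h1, h2⟩
  · exact Or.inl fun D hD => (h D hD).trans hab
  · exact Or.inr ⟨μ, h1, fun D hD hμ => (h2 D hD hμ).trans hab⟩

theorem GoodB.le {w : ℕ} (h : GoodB c V a w) (hab : a ≤ b) : GoodB c V b w := by
  rcases h with h | ⟨μ, h1, h2⟩
  · exact Or.inl fun D hD => (h D hD).trans hab
  · exact Or.inr ⟨μ, h1, fun D hD hμ => (h2 D hD hμ).trans hab⟩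

/-! ## Longer paths -/

/-- a rainbow path of `T` with an arc of a new colour in front -/
theorem RP.prependE {x g : ℕ} {D : Finset ℕ} (h : RP c T x D) (hTV : T ⊆ V) (hg : g ∉ D)
    (hin : ∀ v ∈ T, InE c V g v) : RP c V x (insert g D) := by
  induction h with
  | @single x hx =>
    obtain ⟨y, hy, hyx, hcyx⟩ := hin x hx
    have h1 := RP.step (RP.single hy) (hTV hx) hyx (Finset.notMem_empty (c y x))
    rw [hcyx] at h1
    exact h1
  | @step x y D h hy hlt hc ih =>
    rw [Finset.mem_insert, not_or] at hg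
    rw [Finset.insert_comm]
    refine RP.step (ih hg.2) (hTV hy) hlt ?_
    rw [Finset.mem_insert, not_or]
    exact ⟨fun h => hg.1 h.symm, hc⟩

/-- an arc of a new colour in front of a path with two ends -/
theorem RQ.prepend {x y g u : ℕ} {D : Finset ℕ} (h : RQ c V x y D) (hu : u ∈ V) (hux : u < x)
    (hc : c u x = g) (hg : g ∉ D) : RQ c V u y (insert g D) := by
  induction h with
  | single hx =>
    have h1 := RQ.step (RQ.single hu) hx hux (Finset.notMem_empty (c u x))
    rw [hc] at h1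
    exact h1
  | @step y z D h hz hlt hcy ih =>
    rw [Finset.mem_insert, not_or] at hg
    rw [Finset.insert_comm]
    refine RQ.step (ih hg.2) hz hlt ?_
    rw [Finset.mem_insert, not_or]
    exact ⟨fun h => hg.1 h.symm, hcy⟩

theorem RQ.memL {x y : ℕ} {D : Finset ℕ} (h : RQ c V x y D) : x ∈ V := by
  induction h with
  | single hx => exact hx
  | step _ _ _ _ ih => exact ih

theorem RQ.memR {x y : ℕ} {D : Finset ℕ} (h : RQ c V x y D) : y ∈ V := by
  cases h with
  | single hx => exact hx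
  | step _ hz _ _ => exact hz

/-- a good vertex stays good for one less in a set all of whose vertices have outgoing arcs of a
colour which does not occur in the set -/
theorem GoodF.of_out {w : ℕ} (h : GoodF c U (R + 1) w) (hw : w ∈ T) (hTU : T ⊆ U)
    (hout : ∀ v ∈ T, OutE c U k v) (hfree : ∀ u ∈ T, ∀ v ∈ T, u < v → c u v ≠ k) :
    GoodF c T R w := by
  have hk : ∀ D, RS c T w D → k ∉ D := fun D hD => hD.notMem_of_free hfree
  have happ : ∀ D, RS c T w D → RS c U w (insert k D) := fun D hD =>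
    hD.append hTU (hk D hD) hout
  rcases h with h | ⟨μ, h1, h2⟩
  · refine Or.inl fun D hD => ?_
    have h3 := h _ (happ D hD)
    rw [Finset.card_insert_of_notMem (hk D hD)] at h3
    omega
  · have hμ : μ ≠ k := fun h => h1 (h ▸ hout w hw)
    refine Or.inr ⟨μ, fun h => h1 (h.mono hTU), fun D hD hμD => ?_⟩
    have h3 := h2 _ (happ D hD) (by
      rw [Finset.mem_insert, not_or]
      exact ⟨hμ, hμD⟩)
    rw [Finset.card_insert_of_notMem (hk D hD)] at h3
    omega

theorem GoodB.of_in {w : ℕ} (h : GoodB c U (R + 1) w) (hw : w ∈ T) (hTU : T ⊆ U)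
    (hin : ∀ v ∈ T, InE c U k v) (hfree : ∀ u ∈ T, ∀ v ∈ T, u < v → c u v ≠ k) :
    GoodB c T R w := by
  have hk : ∀ D, RP c T w D → k ∉ D := fun D hD => hD.notMem_of_free hfree
  have happ : ∀ D, RP c T w D → RP c U w (insert k D) := fun D hD =>
    hD.prependE hTU (hk D hD) hin
  rcases h with h | ⟨μ, h1, h2⟩
  · refine Or.inl fun D hD => ?_
    have h3 := h _ (happ D hD)
    rw [Finset.card_insert_of_notMem (hk D hD)] at h3
    omega
  · have hμ : μ ≠ k := fun h => h1 (h ▸ hin w hw)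
    refine Or.inr ⟨μ, fun h => h1 (h.mono hTU), fun D hD hμD => ?_⟩
    have h3 := h2 _ (happ D hD) (by
      rw [Finset.mem_insert, not_or]
      exact ⟨hμ, hμD⟩)
    rw [Finset.card_insert_of_notMem (hk D hD)] at h3
    omega

/-! ## The class with a cut -/

/-- the part below the cut -/
def lo (V : Finset ℕ) (p : ℕ) : Finset ℕ := V.filter fun v => v < p

/-- the part above the cut -/
def hi (V : Finset ℕ) (p : ℕ) : Finset ℕ := V.filter fun v => p ≤ v

theorem mem_lo {v : ℕ} : v ∈ lo V p ↔ v ∈ V ∧ v < p := Finset.mem_filter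

theorem mem_hi {v : ℕ} : v ∈ hi V p ↔ v ∈ V ∧ p ≤ v := Finset.mem_filter

theorem lo_sub : lo V p ⊆ V := Finset.filter_subset _ _

theorem hi_sub : hi V p ⊆ V := Finset.filter_subset _ _

theorem lo_mono (hTV : T ⊆ V) : lo T p ⊆ lo V p := Finset.filter_subset_filter _ hTV

theorem hi_mono (hTV : T ⊆ V) : hi T p ⊆ hi V p := Finset.filter_subset_filter _ hTV

/-- the class (KM) for the cut at `p` -/
def KM (c : ℕ → ℕ → ℕ) (V : Finset ℕ) (p a : ℕ) : Prop :=
  (∀ v ∈ lo V p, GoodB c (lo V p) a v) ∧ (∀ w ∈ hi V p, GoodF c (hi V p) a w) ∧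
    ∀ x y D, RQ c V x y D → x < p → p ≤ y → D.card ≤ a

/-- some cut is a (KM) cut -/
def KMs (c : ℕ → ℕ → ℕ) (V : Finset ℕ) (a : ℕ) : Prop := ∃ p, KM c V p a

theorem KM.mono (h : KM c V p a) (hTV : T ⊆ V) : KM c T p a :=
  ⟨fun v hv => (h.1 v (lo_mono hTV hv)).mono (lo_mono hTV),
    fun w hw => (h.2.1 w (hi_mono hTV hw)).mono (hi_mono hTV),
    fun x y D hD => h.2.2 x y D (hD.mono hTV)⟩

theorem KMs.mono (h : KMs c V a) (hTV : T ⊆ V) : KMs c T a := by
  obtain ⟨p, h⟩ := h
  exact ⟨p, h.mono hTV⟩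

/-- sets of rank at most `a` are in the class, for every cut -/
theorem KM_of_Rk (h : Rk c V a) (p : ℕ) : KM c V p a :=
  ⟨fun _ _ => Or.inl fun D hD => h _ D (hD.mono lo_sub),
    fun _ _ => Or.inl fun _ hD => (hD.mono hi_sub).card_le h,
    fun _ y D hD _ _ => h y D hD.toRP⟩

/-- the class for `0` -/
theorem KM.card_le_one (h : KM c V p 0) : V.card ≤ 1 := by
  have key : ∀ a ∈ V, ∀ d ∈ V, ¬ a < d := by
    intro a ha d hd hlt
    rcases lt_or_ge d p with hdp | hdp
    · have hd' : d ∈ lo V p := mem_lo.mpr ⟨hd, hdp⟩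
      have ha' : a ∈ lo V p := mem_lo.mpr ⟨ha, hlt.trans hdp⟩
      rcases h.1 d hd' with h1 | ⟨μ, h1, h2⟩
      · have h3 := h1 _ (RP.step (RP.single ha') hd' hlt (Finset.notMem_empty _))
        simp at h3
      · have h3 := h2 ∅ (RP.single hd') (Finset.notMem_empty _)
        omega
    · rcases lt_or_ge a p with hap | hap
      · have h3 := h.2.2 a d _ (RQ.step (RQ.single ha) hd hlt (Finset.notMem_empty _)) hap hdp
        simp at h3
      · have hd' : d ∈ hi V p := mem_hi.mpr ⟨hd, hdp⟩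
        have ha' : a ∈ hi V p := mem_hi.mpr ⟨ha, hap⟩
        rcases h.2.1 a ha' with h1 | ⟨μ, h1, h2⟩
        · have h3 := h1 _ (RS.step (RS.single hd') ha' hlt (Finset.notMem_empty _))
          simp at h3
        · have h3 := h2 ∅ (RS.single ha') (Finset.notMem_empty _)
          omega
  rw [Finset.card_le_one]
  intro a ha d hd
  exact le_antisymm (not_lt.mp (key d hd a ha)) (not_lt.mp (key a ha d hd))

/-- the colour recursion: a set of the class for `R + 1` with at least two vertices is a union of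
`l` sets of the class for `R` -/
def KMRec (l : ℕ) : Prop :=
  ∀ (R : ℕ) (c : ℕ → ℕ → ℕ) (V : Finset ℕ), (∀ γ v, ¬ MP c V γ v l) → 2 ≤ V.card →
    KMs c V (R + 1) →
      ∃ f : ℕ → ℕ, (∀ v ∈ V, f v < l) ∧ ∀ i < l, KMs c (V.filter fun v => f v = i) R

theorem card_le_of_KMRec (hl : 1 ≤ l) (h : KMRec l) : ∀ (R : ℕ) (c : ℕ → ℕ → ℕ) (V : Finset ℕ),
    (∀ γ v, ¬ MP c V γ v l) → KMs c V R → V.card ≤ l ^ R := by
  intro R
  induction R with
  | zero =>
    intro c V _ hV
    obtain ⟨p, hp⟩ := hV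
    simpa using hp.card_le_one
  | succ R ih =>
    intro c V hno hV
    rcases Nat.lt_or_ge V.card 2 with hV2 | hV2
    · exact (Nat.lt_succ_iff.mp hV2).trans (Nat.one_le_pow _ _ hl)
    obtain ⟨f, hf, hcl⟩ := h R c V hno hV2 hV
    have h1 : V.card = ∑ i ∈ Finset.range l, (V.filter fun v => f v = i).card :=
      Finset.card_eq_sum_card_fiberwise fun v hv => Finset.mem_coe.mpr
        (Finset.mem_range.mpr (hf v hv))
    rw [h1]
    refine (Finset.sum_le_card_nsmul _ _ (l ^ R) fun i hi => ?_).trans ?_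
    · exact ih c _ (fun γ v hm => hno γ v (hm.mono (Finset.filter_subset _ _)))
        (hcl i (Finset.mem_range.mp hi))
    · rw [Finset.card_range, smul_eq_mul, pow_succ, mul_comm]

theorem Bnd_of_KMRec (hl : 1 ≤ l) (h : KMRec l) : Bnd l := fun R c V _ hL hR =>
  card_le_of_KMRec hl h R c V hL.noMP ⟨0, KM_of_Rk hR 0⟩

/-- the frozen statement S08791 from the colour recursion for `l = 3` -/
theorem S08791_of_KMRec (h : KMRec 3) :
    ∀ k : ℕ, 1 ≤ k →
      (∃ c : Fin (3 ^ (k - 1)) → Fin (3 ^ (k - 1)) → ℕ,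
          (¬ ∃ x : Fin (3 + 1) → Fin (3 ^ (k - 1)), StrictMono x ∧
              ∃ col : ℕ, ∀ i : Fin 3, c (x i.castSucc) (x i.succ) = col) ∧
          (¬ ∃ y : Fin (k + 1) → Fin (3 ^ (k - 1)), StrictMono y ∧
              Function.Injective (fun i : Fin k => c (y i.castSucc) (y i.succ)))) ∧
      (∀ c : Fin (3 ^ (k - 1) + 1) → Fin (3 ^ (k - 1) + 1) → ℕ,
          (∃ x : Fin (3 + 1) → Fin (3 ^ (k - 1) + 1), StrictMono x ∧
              ∃ col : ℕ, ∀ i : Fin 3, c (x i.castSucc) (x i.succ) = col) ∨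
          (∃ y : Fin (k + 1) → Fin (3 ^ (k - 1) + 1), StrictMono y ∧
              Function.Injective (fun i : Fin k => c (y i.castSucc) (y i.succ)))) :=
  S08791_of_Bnd (Bnd_of_KMRec (by norm_num) h)

/-- the whole problem for one `l` from the colour recursion for `l` -/
theorem main_of_KMRec (hl : 1 ≤ l) (h : KMRec l) :
    ∀ k : ℕ, 1 ≤ k →
      (∃ c : Fin (l ^ (k - 1)) → Fin (l ^ (k - 1)) → ℕ,
          (¬ ∃ x : Fin (l + 1) → Fin (l ^ (k - 1)), StrictMono x ∧
              ∃ col : ℕ, ∀ i : Fin l, c (x i.castSucc) (x i.succ) = col) ∧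
          (¬ ∃ y : Fin (k + 1) → Fin (l ^ (k - 1)), StrictMono y ∧
              Function.Injective (fun i : Fin k => c (y i.castSucc) (y i.succ)))) ∧
      (∀ c : Fin (l ^ (k - 1) + 1) → Fin (l ^ (k - 1) + 1) → ℕ,
          (∃ x : Fin (l + 1) → Fin (l ^ (k - 1) + 1), StrictMono x ∧
              ∃ col : ℕ, ∀ i : Fin l, c (x i.castSucc) (x i.succ) = col) ∨
          (∃ y : Fin (k + 1) → Fin (l ^ (k - 1) + 1), StrictMono y ∧
              Function.Injective (fun i : Fin k => c (y i.castSucc) (y i.succ)))) :=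
  main_of_Bnd hl (Bnd_of_KMRec hl h)

/-! ## The natural classes of a colour, `l = 3` -/

/-- the number of the natural class: heads and the isolated vertices below the cut `0`, middle
vertices `1`, tails and the isolated vertices above the cut `2` -/
noncomputable def ncl (c : ℕ → ℕ → ℕ) (V : Finset ℕ) (p k v : ℕ) : ℕ :=
  if InE c V k v then (if OutE c V k v then 1 else 2)
  else if v < p then 0 else if OutE c V k v then 0 else 2

theorem ncl_lt (v : ℕ) : ncl c V p k v < 3 := by
  unfold ncl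
  split_ifs <;> norm_num

theorem ncl_zero {v : ℕ} (h : ncl c V p k v = 0) :
    ¬ InE c V k v ∧ (p ≤ v → OutE c V k v) := by
  unfold ncl at h
  by_cases h1 : InE c V k v <;> by_cases h2 : OutE c V k v <;> by_cases h3 : v < p <;>
    simp_all

theorem ncl_one {v : ℕ} (h : ncl c V p k v = 1) : InE c V k v ∧ OutE c V k v := by
  unfold ncl at h
  by_cases h1 : InE c V k v <;> by_cases h2 : OutE c V k v <;> by_cases h3 : v < p <;>
    simp_all

theorem ncl_two {v : ℕ} (h : ncl c V p k v = 2) :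
    ¬ OutE c V k v ∧ (v < p → InE c V k v) := by
  unfold ncl at h
  by_cases h1 : InE c V k v <;> by_cases h2 : OutE c V k v <;> by_cases h3 : v < p <;>
    simp_all

/-- the natural class with the number `i` -/
noncomputable def ncls (c : ℕ → ℕ → ℕ) (V : Finset ℕ) (p k i : ℕ) : Finset ℕ :=
  V.filter fun v => ncl c V p k v = i

theorem mem_ncls {i v : ℕ} : v ∈ ncls c V p k i ↔ v ∈ V ∧ ncl c V p k v = i := Finset.mem_filter

theorem ncls_sub {i : ℕ} : ncls c V p k i ⊆ V := Finset.filter_subset _ _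

/-- no arc of the colour `k` inside a natural class -/
theorem ncls_free (hno : ∀ γ v, ¬ MP c V γ v 3) {i : ℕ} (hi : i < 3) :
    ∀ u ∈ ncls c V p k i, ∀ v ∈ ncls c V p k i, u < v → c u v ≠ k := by
  intro u hu v hv hlt hc
  rw [mem_ncls] at hu hv
  interval_cases i
  · exact (ncl_zero hv.2).1 ⟨u, hu.1, hlt, hc⟩
  · obtain ⟨x, hx, hxu, hcx⟩ := (ncl_one hu.2).1
    obtain ⟨y, hy, hvy, hcy⟩ := (ncl_one hv.2).2
    exact hno k y (MP.step (MP.step (MP.step (MP.single hx) hu.1 hxu hcx) hv.1 hlt hc) hy hvy hcy)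
  · exact (ncl_two hu.2).1 ⟨v, hv.1, hlt, hc⟩

/-- crossing paths of the natural classes are shorter -/
theorem ncls_cross (hno : ∀ γ v, ¬ MP c V γ v 3) (h : KM c V p (R + 1)) {i : ℕ} (hi : i < 3)
    {x y : ℕ} {D : Finset ℕ} (hD : RQ c (ncls c V p k i) x y D) (hx : x < p) (hy : p ≤ y) :
    D.card ≤ R := by
  have hk : k ∉ D := hD.toRP.notMem_of_free (ncls_free hno hi)
  have hD' : RQ c V x y D := hD.mono ncls_sub
  have hxm := hD.memL
  have hym := hD.memR
  rw [mem_ncls] at hxm hym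
  have hout : OutE c V k y → D.card ≤ R := by
    rintro ⟨t, ht, hyt, hct⟩
    have h1 := h.2.2 x t _ (RQ.step hD' ht hyt (by rw [hct]; exact hk)) hx (hy.trans hyt.le)
    rw [hct, Finset.card_insert_of_notMem hk] at h1
    omega
  have hin : InE c V k x → D.card ≤ R := by
    rintro ⟨t, ht, htx, hct⟩
    have h1 := h.2.2 t y _ (hD'.prepend ht htx hct hk) (htx.trans hx) hy
    rw [Finset.card_insert_of_notMem hk] at h1
    omega
  interval_cases i
  · exact hout ((ncl_zero hym.2).2 hy)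
  · exact hout (ncl_one hym.2).2
  · exact hin ((ncl_two hxm.2).2 hx)

/-- **The natural classes.** -/
theorem KM_levels (hno : ∀ γ v, ¬ MP c V γ v 3) (h : KM c V p (R + 1))
    (hD : ∀ v ∈ lo (ncls c V p k 0) p, GoodB c (lo (ncls c V p k 0) p) R v)
    (hU : ∀ w ∈ hi (ncls c V p k 2) p, GoodF c (hi (ncls c V p k 2) p) R w) :
    ∀ i < 3, KM c (ncls c V p k i) p R := by
  intro i hi3
  have hfree := ncls_free (c := c) (V := V) (p := p) (k := k) hno hi3
  have hup : ∀ w ∈ hi (ncls c V p k i) p, (∀ v ∈ hi (ncls c V p k i) p, OutE c V k v) →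
      GoodF c (hi (ncls c V p k i) p) R w := by
    intro w hw hout
    refine (h.2.1 w (hi_mono ncls_sub hw)).of_out (k := k) hw (hi_mono ncls_sub) ?_
      (fun u hu v hv => hfree u (hi_sub hu) v (hi_sub hv))
    intro v hv
    obtain ⟨t, ht, hvt, hct⟩ := hout v hv
    exact ⟨t, mem_hi.mpr ⟨ht, (mem_hi.mp hv).2.trans hvt.le⟩, hvt, hct⟩
  have hdn : ∀ w ∈ lo (ncls c V p k i) p, (∀ v ∈ lo (ncls c V p k i) p, InE c V k v) →
      GoodB c (lo (ncls c V p k i) p) R w := by
    intro w hw hin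
    refine (h.1 w (lo_mono ncls_sub hw)).of_in (k := k) hw (lo_mono ncls_sub) ?_
      (fun u hu v hv => hfree u (lo_sub hu) v (lo_sub hv))
    intro v hv
    obtain ⟨t, ht, htv, hct⟩ := hin v hv
    exact ⟨t, mem_lo.mpr ⟨ht, htv.trans (mem_lo.mp hv).2⟩, htv, hct⟩
  refine ⟨?_, ?_, fun x y D hD hx hy => ncls_cross hno h hi3 hD hx hy⟩
  · intro v hv
    interval_cases i
    · exact hD v hv
    · exact hdn v hv fun u hu => (ncl_one (mem_ncls.mp (lo_sub hu)).2).1
    · exact hdn v hv fun u hu =>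
        (ncl_two (mem_ncls.mp (lo_sub hu)).2).2 (mem_lo.mp hu).2
  · intro w hw
    interval_cases i
    · exact hup w hw fun u hu =>
        (ncl_zero (mem_ncls.mp (hi_sub hu)).2).2 (mem_hi.mp hu).2
    · exact hup w hw fun u hu => (ncl_one (mem_ncls.mp (hi_sub hu)).2).2
    · exact hU w hw

/-- the rule: some cut and some colour have good natural classes -/
def KMRule : Prop :=
  ∀ (R : ℕ) (c : ℕ → ℕ → ℕ) (V : Finset ℕ), (∀ γ v, ¬ MP c V γ v 3) → 2 ≤ V.card →
    KMs c V (R + 1) → ∃ p k, KM c V p (R + 1) ∧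
      (∀ v ∈ lo (ncls c V p k 0) p, GoodB c (lo (ncls c V p k 0) p) R v) ∧
      ∀ w ∈ hi (ncls c V p k 2) p, GoodF c (hi (ncls c V p k 2) p) R w

theorem KMRec_of_rule (h : KMRule) : KMRec 3 := by
  intro R c V hno h2 hV
  obtain ⟨p, k, h1, hD, hU⟩ := h R c V hno h2 hV
  exact ⟨ncl c V p k, fun v _ => ncl_lt v, fun i hi => ⟨p, KM_levels hno h1 hD hU i hi⟩⟩

/-- the frozen statement S08791 from the rule -/
theorem S08791_of_rule (h : KMRule) :
    ∀ k : ℕ, 1 ≤ k →
      (∃ c : Fin (3 ^ (k - 1)) → Fin (3 ^ (k - 1)) → ℕ,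
          (¬ ∃ x : Fin (3 + 1) → Fin (3 ^ (k - 1)), StrictMono x ∧
              ∃ col : ℕ, ∀ i : Fin 3, c (x i.castSucc) (x i.succ) = col) ∧
          (¬ ∃ y : Fin (k + 1) → Fin (3 ^ (k - 1)), StrictMono y ∧
              Function.Injective (fun i : Fin k => c (y i.castSucc) (y i.succ)))) ∧
      (∀ c : Fin (3 ^ (k - 1) + 1) → Fin (3 ^ (k - 1) + 1) → ℕ,
          (∃ x : Fin (3 + 1) → Fin (3 ^ (k - 1) + 1), StrictMono x ∧
              ∃ col : ℕ, ∀ i : Fin 3, c (x i.castSucc) (x i.succ) = col) ∨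
          (∃ y : Fin (k + 1) → Fin (3 ^ (k - 1) + 1), StrictMono y ∧
              Function.Injective (fun i : Fin k => c (y i.castSucc) (y i.succ)))) :=
  S08791_of_KMRec (KMRec_of_rule h)

end FlashRainbow
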